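import Pool.Agent.Helper5_DF7.Basic
import Pool.Agent.Helper93_SMZ.Core

/-!
# MP_df7fe8_co: the three chains which are enough for every lattice
-/

set_option autoImplicit false

namespace Pool.Agent.Helper64_DF7

open Set Pool.Agent.Helper5_DF7

theorem locBdd_of_smz {L : Type*} [PartialOrder L] (hb : Pool.Agent.SMZ.LocChainBdd L) :
    LocBdd L := by
  intro x y hxy
  obtain ⟨n, hn⟩ := hb x y hxy
  exact ⟨n, fun s hs hsub => hn s hsub hs⟩

/-- `ω` copies of `ω*` are enough. -/
theorem enough1 {L : Type*} [SemilatticeSup L] (hb' : Pool.Agent.SMZ.LocChainBdd L) :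
    ∃ f : L → ℕ ×ₗ ℕᵒᵈ, StrictMono f := by
  have hb := locBdd_of_smz hb'
  rcases isEmpty_or_nonempty L with hL | ⟨⟨p⟩⟩
  · exact ⟨fun x => isEmptyElim x, fun x => isEmptyElim x⟩
  · refine ⟨fun z => toLex (hh p (p ⊔ z), OrderDual.toDual (hh z (p ⊔ z))), ?_⟩
    intro z z' hz
    rw [Prod.Lex.toLex_lt_toLex]
    rcases (sup_le_sup_left hz.le p).lt_or_eq with h | h
    · left
      have := hh_right hb (le_sup_left : p ≤ p ⊔ z) h
      dsimp only
      omega
    · right
      dsimp only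
      rw [← h]
      refine ⟨rfl, ?_⟩
      have h1 : z' ≤ p ⊔ z := by rw [h]; exact le_sup_right
      have := hh_left hb hz h1
      rw [OrderDual.toDual_lt_toDual]
      omega

/-- `ω*` copies of `ω` are enough. -/
theorem enough2 {L : Type*} [SemilatticeInf L] (hb' : Pool.Agent.SMZ.LocChainBdd L) :
    ∃ f : L → ℕᵒᵈ ×ₗ ℕ, StrictMono f := by
  have hb := locBdd_of_smz hb'
  rcases isEmpty_or_nonempty L with hL | ⟨⟨p⟩⟩
  · exact ⟨fun x => isEmptyElim x, fun x => isEmptyElim x⟩
  · refine ⟨fun z => toLex (OrderDual.toDual (hh (p ⊓ z) p), hh (p ⊓ z) z), ?_⟩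
    intro z z' hz
    rw [Prod.Lex.toLex_lt_toLex]
    rcases (inf_le_inf_left p hz.le).lt_or_eq with h | h
    · left
      have := hh_left hb h (inf_le_left : p ⊓ z' ≤ p)
      dsimp only
      rw [OrderDual.toDual_lt_toDual]
      omega
    · right
      dsimp only
      rw [← h]
      refine ⟨rfl, ?_⟩
      have := hh_right hb (inf_le_right : p ⊓ z ≤ z) hz
      omega

/-- `(ω²)* + ω²` is enough. -/
theorem enough3 {L : Type*} [Lattice L] (hb' : Pool.Agent.SMZ.LocChainBdd L) :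
    ∃ f : L → (ℕᵒᵈ ×ₗ ℕᵒᵈ) ⊕ₗ (ℕ ×ₗ ℕ), StrictMono f := by
  have hb := locBdd_of_smz hb'
  rcases isEmpty_or_nonempty L with hL | ⟨⟨p⟩⟩
  · exact ⟨fun x => isEmptyElim x, fun x => isEmptyElim x⟩
  · obtain ⟨u, hu⟩ : ∃ u : L → ℕ, ∀ z, u z = hh p (p ⊔ z) := ⟨_, fun _ => rfl⟩
    obtain ⟨v, hv⟩ : ∃ v : L → ℕ, ∀ z, v z = hh (p ⊓ z) p := ⟨_, fun _ => rfl⟩
    have hum : ∀ {z z' : L}, z ≤ z' → u z ≤ u z' := by
      intro z z' h
      rw [hu, hu]
      exact hh_mono hb le_rfl (sup_le_sup_left h p)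
    have hvm : ∀ {z z' : L}, z ≤ z' → v z' ≤ v z := by
      intro z z' h
      rw [hv, hv]
      exact hh_mono hb (inf_le_inf_left p h) le_rfl
    have hue : ∀ {z z' : L}, z ≤ z' → u z' ≤ u z → p ⊔ z = p ⊔ z' := by
      intro z z' h h'
      rcases (sup_le_sup_left h p).lt_or_eq with h1 | h1
      · have := hh_right hb (le_sup_left : p ≤ p ⊔ z) h1
        rw [hu, hu] at h'
        omega
      · exact h1
    have hve : ∀ {z z' : L}, z ≤ z' → v z ≤ v z' → p ⊓ z = p ⊓ z' := by
      intro z z' h h'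
      rcases (inf_le_inf_left p h).lt_or_eq with h1 | h1
      · have := hh_left hb h1 (inf_le_left : p ⊓ z' ≤ p)
        rw [hv, hv] at h'
        omega
      · exact h1
    obtain ⟨f, hf1, hf2⟩ : ∃ f : L → (ℕᵒᵈ ×ₗ ℕᵒᵈ) ⊕ₗ (ℕ ×ₗ ℕ),
        (∀ z, v z ≤ u z → f z = toLex (Sum.inr (toLex (u z - v z, hh (p ⊓ z) z)))) ∧
        ∀ z, ¬ v z ≤ u z → f z = toLex (Sum.inl (toLex (OrderDual.toDual (v z - u z),
          OrderDual.toDual (hh z (p ⊔ z))))) := by
      classical
      refine ⟨fun z => if v z ≤ u z then toLex (Sum.inr (toLex (u z - v z, hh (p ⊓ z) z)))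
        else toLex (Sum.inl (toLex (OrderDual.toDual (v z - u z),
          OrderDual.toDual (hh z (p ⊔ z))))), fun z h => if_pos h, fun z h => if_neg h⟩
    refine ⟨f, ?_⟩
    intro z z' hz
    have h1 := hum hz.le
    have h2 := hvm hz.le
    by_cases h3 : v z ≤ u z
    · have h4 : v z' ≤ u z' := by omega
      rw [hf1 z h3, hf1 z' h4, Sum.Lex.toLex_lt_toLex]
      refine Sum.Lex.inr ?_
      rw [Prod.Lex.toLex_lt_toLex]
      rcases Nat.lt_or_ge (u z - v z) (u z' - v z') with h5 | h5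
      · exact Or.inl h5
      · right
        have h6 := hue hz.le (by omega)
        have h7 := hve hz.le (by omega)
        refine ⟨by dsimp only; omega, ?_⟩
        dsimp only
        rw [← h7]
        have := hh_right hb (inf_le_right : p ⊓ z ≤ z) hz
        omega
    · by_cases h4 : v z' ≤ u z'
      · rw [hf2 z h3, hf1 z' h4]
        exact Sum.Lex.inl_lt_inr _ _
      · rw [hf2 z h3, hf2 z' h4, Sum.Lex.toLex_lt_toLex]
        refine Sum.Lex.inl ?_
        rw [Prod.Lex.toLex_lt_toLex]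
        rcases Nat.lt_or_ge (v z' - u z') (v z - u z) with h5 | h5
        · exact Or.inl (OrderDual.toDual_lt_toDual.2 h5)
        · right
          have h6 := hue hz.le (by omega)
          refine ⟨congrArg OrderDual.toDual (by omega), ?_⟩
          dsimp only
          rw [← h6, OrderDual.toDual_lt_toDual]
          have h8 : z' ≤ p ⊔ z := by rw [h6]; exact le_sup_right
          have := hh_left hb hz h8
          omega

end Pool.Agent.Helper64_DF7
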