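import Pool.Agent.Helper93_SMZ.Core

/-!
# MP_df7fe8_co: the chain of integers inside a power of a lattice with two elements
-/

set_option autoImplicit false

namespace Pool.Agent.Helper64_DF7

open Set

universe u

/-- The step function with the jump at `z`. -/
noncomputable def stepf {M : Type u} (a b : M) (z : ℤ) : ULift.{u} ℤ → M :=
  fun i => if i.down < z then b else a

theorem stepf_mono {M : Type u} [Lattice M] {a b : M} (hab : a < b) {z w : ℤ} (h : z ≤ w) :
    stepf a b z ≤ stepf a b w := by
  intro i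
  unfold stepf
  by_cases h1 : i.down < z
  · have h2 : i.down < w := by omega
    rw [if_pos h1, if_pos h2]
  · rw [if_neg h1]
    by_cases h2 : i.down < w
    · rw [if_pos h2]
      exact hab.le
    · rw [if_neg h2]

theorem stepf_lt {M : Type u} [Lattice M] {a b : M} (hab : a < b) {z w : ℤ} (h : z < w) :
    stepf a b z < stepf a b w := by
  refine lt_of_le_of_ne (stepf_mono hab h.le) ?_
  intro he
  have h1 := congrFun he ⟨z⟩
  unfold stepf at h1
  rw [if_neg (lt_irrefl z), if_pos h] at h1
  exact hab.ne h1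

/-- The copy of the chain of integers. -/
def zsub {M : Type u} [Lattice M] (a b : M) (hab : a < b) : Sublattice (ULift.{u} ℤ → M) where
  carrier := Set.range (stepf a b)
  supClosed' := by
    rintro _ ⟨z, rfl⟩ _ ⟨w, rfl⟩
    rcases le_total z w with h | h
    · exact ⟨w, (sup_eq_right.2 (stepf_mono hab h)).symm⟩
    · exact ⟨z, (sup_eq_left.2 (stepf_mono hab h)).symm⟩
  infClosed' := by
    rintro _ ⟨z, rfl⟩ _ ⟨w, rfl⟩
    rcases le_total z w with h | h
    · exact ⟨z, (inf_eq_left.2 (stepf_mono hab h)).symm⟩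
    · exact ⟨w, (inf_eq_right.2 (stepf_mono hab h)).symm⟩

/-- The parametrisation by the integers. -/
noncomputable def zpar {M : Type u} [Lattice M] (a b : M) (hab : a < b) (z : ℤ) :
    zsub a b hab := ⟨stepf a b z, z, rfl⟩

theorem zpar_strictMono {M : Type u} [Lattice M] (a b : M) (hab : a < b) :
    StrictMono (zpar a b hab) := fun _ _ h => stepf_lt hab h

theorem zpar_surjective {M : Type u} [Lattice M] (a b : M) (hab : a < b) :
    Function.Surjective (zpar a b hab) := by
  rintro ⟨_, z, rfl⟩
  exact ⟨z, rfl⟩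

theorem zsub_finite_Icc {M : Type u} [Lattice M] (a b : M) (hab : a < b) (x y : zsub a b hab) :
    (Set.Icc x y).Finite := by
  obtain ⟨z, rfl⟩ := zpar_surjective a b hab x
  obtain ⟨w, rfl⟩ := zpar_surjective a b hab y
  refine ((Set.finite_Icc z w).image (zpar a b hab)).subset ?_
  intro v hv
  obtain ⟨t, rfl⟩ := zpar_surjective a b hab v
  exact ⟨t, ⟨(zpar_strictMono a b hab).le_iff_le.1 hv.1,
    (zpar_strictMono a b hab).le_iff_le.1 hv.2⟩, rfl⟩

theorem locChainBdd_of_finite {P : Type*} [PartialOrder P]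
    (h : ∀ x y : P, (Set.Icc x y).Finite) : Pool.Agent.SMZ.LocChainBdd P := by
  intro x y _
  refine ⟨(h x y).toFinset.card, fun c hc _ => ?_⟩
  refine (Set.encard_le_encard hc).trans ?_
  rw [(h x y).encard_eq_coe_toFinset_card]

/-- A lattice with two elements has in one of its powers a sublattice which is a copy of the
chain of integers. -/
theorem exists_zsub {M : Type u} [Lattice M] [Nontrivial M] :
    ∃ S : Sublattice (ULift.{u} ℤ → M), (∀ x y : S, (Set.Icc x y).Finite) ∧
      ∃ g : ℤ → S, StrictMono g ∧ Function.Surjective g := by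
  obtain ⟨x, y, hxy⟩ := exists_pair_ne M
  have hlt : ∃ a b : M, a < b := by
    by_cases h : x ≤ y
    · exact ⟨x, y, lt_of_le_of_ne h hxy⟩
    · refine ⟨x ⊓ y, x, lt_of_le_of_ne inf_le_left ?_⟩
      intro he
      exact h (inf_eq_left.1 he)
  obtain ⟨a, b, hab⟩ := hlt
  exact ⟨zsub a b hab, zsub_finite_Icc a b hab, zpar a b hab, zpar_strictMono a b hab,
    zpar_surjective a b hab⟩

end Pool.Agent.Helper64_DF7
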