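import Pool.Agent.Helper64_DF7.Maps

/-!
# MP_df7fe8_co: the chains which are enough for countable coinitiality or cofinality
-/

set_option autoImplicit false

namespace Pool.Agent.Helper64_DF7

open Set Pool.Agent.Helper5_DF7

/-- Countable coinitiality: `(ω²)* + ω` is enough. -/
theorem enough4 {L : Type*} [Lattice L] (hb' : Pool.Agent.SMZ.LocChainBdd L) (D : Set L)
    (hD : D.Countable) (hD' : ∀ x, ∃ d ∈ D, d ≤ x) :
    ∃ f : L → (ℕᵒᵈ ×ₗ ℕᵒᵈ) ⊕ₗ ℕ, StrictMono f := by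
  have hb := locBdd_of_smz hb'
  rcases isEmpty_or_nonempty L with hL | ⟨⟨p⟩⟩
  · exact ⟨fun x => isEmptyElim x, fun x => isEmptyElim x⟩
  have hDne : D.Nonempty := by
    obtain ⟨d, hd, -⟩ := hD' p
    exact ⟨d, hd⟩
  obtain ⟨e, he⟩ := hD.exists_eq_range hDne
  obtain ⟨z, hz⟩ : ∃ z : ℕ → L, ∀ k, z k ≤ e k ∧ z (k + 1) ≤ z k := by
    refine ⟨fun k => Nat.rec (e 0) (fun k w => w ⊓ e (k + 1)) k, fun k => ⟨?_, inf_le_left⟩⟩
    cases k with
    | zero => exact le_rfl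
    | succ k => exact inf_le_right
  have hza : Antitone z := antitone_nat_of_succ_le fun k => (hz k).2
  have hzc : ∀ x, ∃ k, z k ≤ x := by
    intro x
    obtain ⟨d, hd, hdx⟩ := hD' x
    rw [he] at hd
    obtain ⟨k, rfl⟩ := hd
    exact ⟨k, (hz k).1.trans hdx⟩
  classical
  obtain ⟨m, hm1, hm2⟩ : ∃ m : L → ℕ, (∀ x, z (m x) ≤ x) ∧ ∀ x k, z k ≤ x → m x ≤ k :=
    ⟨fun x => Nat.find (hzc x), fun x => Nat.find_spec (hzc x), fun x k h => Nat.find_min' _ h⟩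
  obtain ⟨s, hs⟩ : ∃ s : L → ℕ, ∀ x, s x = hh p (p ⊔ x) := ⟨_, fun _ => rfl⟩
  have hmm : ∀ {x y : L}, x ≤ y → m y ≤ m x := fun {x y} h => hm2 y _ ((hm1 x).trans h)
  have hsm : ∀ {x y : L}, x ≤ y → s x ≤ s y := by
    intro x y h
    rw [hs, hs]
    exact hh_mono hb le_rfl (sup_le_sup_left h p)
  have hse : ∀ {x y : L}, x ≤ y → s y ≤ s x → p ⊔ x = p ⊔ y := by
    intro x y h h'
    rcases (sup_le_sup_left h p).lt_or_eq with h1 | h1
    · have := hh_right hb (le_sup_left : p ≤ p ⊔ x) h1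
      rw [hs, hs] at h'
      omega
    · exact h1
  obtain ⟨f, hf1, hf2⟩ : ∃ f : L → (ℕᵒᵈ ×ₗ ℕᵒᵈ) ⊕ₗ ℕ,
      (∀ x, m x ≤ s x → f x = toLex (Sum.inr (hh (z (s x)) x))) ∧
      ∀ x, ¬ m x ≤ s x → f x = toLex (Sum.inl (toLex (OrderDual.toDual (m x - s x),
        OrderDual.toDual (hh x (p ⊔ x))))) :=
    ⟨fun x => if m x ≤ s x then toLex (Sum.inr (hh (z (s x)) x))
      else toLex (Sum.inl (toLex (OrderDual.toDual (m x - s x),
        OrderDual.toDual (hh x (p ⊔ x))))), fun x h => if_pos h, fun x h => if_neg h⟩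
  refine ⟨f, ?_⟩
  intro x y hxy
  have h1 := hmm hxy.le
  have h2 := hsm hxy.le
  by_cases h3 : m x ≤ s x
  · have h4 : m y ≤ s y := by omega
    rw [hf1 x h3, hf1 y h4, Sum.Lex.toLex_lt_toLex]
    refine Sum.Lex.inr ?_
    have h5 : z (s x) ≤ x := (hza h3).trans (hm1 x)
    have h6 := hh_right hb h5 hxy
    have h7 := hh_mono hb (hza h2) (le_refl y)
    omega
  · by_cases h4 : m y ≤ s y
    · rw [hf2 x h3, hf1 y h4]
      exact Sum.Lex.inl_lt_inr _ _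
    · rw [hf2 x h3, hf2 y h4, Sum.Lex.toLex_lt_toLex]
      refine Sum.Lex.inl ?_
      rw [Prod.Lex.toLex_lt_toLex]
      rcases Nat.lt_or_ge (m y - s y) (m x - s x) with h5 | h5
      · exact Or.inl (OrderDual.toDual_lt_toDual.2 h5)
      · right
        have h6 := hse hxy.le (by omega)
        refine ⟨congrArg OrderDual.toDual (by omega), ?_⟩
        dsimp only
        rw [← h6, OrderDual.toDual_lt_toDual]
        have h8 : y ≤ p ⊔ x := by rw [h6]; exact le_sup_right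
        have := hh_left hb hxy h8
        omega

/-- Countable cofinality: `ω* + ω²` is enough. -/
theorem enough5 {L : Type*} [Lattice L] (hb' : Pool.Agent.SMZ.LocChainBdd L) (D : Set L)
    (hD : D.Countable) (hD' : ∀ x, ∃ d ∈ D, x ≤ d) :
    ∃ f : L → ℕᵒᵈ ⊕ₗ (ℕ ×ₗ ℕ), StrictMono f := by
  have hb := locBdd_of_smz hb'
  rcases isEmpty_or_nonempty L with hL | ⟨⟨p⟩⟩
  · exact ⟨fun x => isEmptyElim x, fun x => isEmptyElim x⟩
  have hDne : D.Nonempty := by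
    obtain ⟨d, hd, -⟩ := hD' p
    exact ⟨d, hd⟩
  obtain ⟨e, he⟩ := hD.exists_eq_range hDne
  obtain ⟨z, hz⟩ : ∃ z : ℕ → L, ∀ k, e k ≤ z k ∧ z k ≤ z (k + 1) := by
    refine ⟨fun k => Nat.rec (e 0) (fun k w => w ⊔ e (k + 1)) k, fun k => ⟨?_, le_sup_left⟩⟩
    cases k with
    | zero => exact le_rfl
    | succ k => exact le_sup_right
  have hza : Monotone z := monotone_nat_of_le_succ fun k => (hz k).2
  have hzc : ∀ x, ∃ k, x ≤ z k := by
    intro x
    obtain ⟨d, hd, hdx⟩ := hD' x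
    rw [he] at hd
    obtain ⟨k, rfl⟩ := hd
    exact ⟨k, hdx.trans (hz k).1⟩
  classical
  obtain ⟨m, hm1, hm2⟩ : ∃ m : L → ℕ, (∀ x, x ≤ z (m x)) ∧ ∀ x k, x ≤ z k → m x ≤ k :=
    ⟨fun x => Nat.find (hzc x), fun x => Nat.find_spec (hzc x), fun x k h => Nat.find_min' _ h⟩
  obtain ⟨s, hs⟩ : ∃ s : L → ℕ, ∀ x, s x = hh (p ⊓ x) p := ⟨_, fun _ => rfl⟩
  have hmm : ∀ {x y : L}, x ≤ y → m x ≤ m y := fun {x y} h => hm2 x _ (h.trans (hm1 y))
  have hsm : ∀ {x y : L}, x ≤ y → s y ≤ s x := by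
    intro x y h
    rw [hs, hs]
    exact hh_mono hb (inf_le_inf_left p h) le_rfl
  have hse : ∀ {x y : L}, x ≤ y → s x ≤ s y → p ⊓ x = p ⊓ y := by
    intro x y h h'
    rcases (inf_le_inf_left p h).lt_or_eq with h1 | h1
    · have := hh_left hb h1 (inf_le_left : p ⊓ y ≤ p)
      rw [hs, hs] at h'
      omega
    · exact h1
  obtain ⟨f, hf1, hf2⟩ : ∃ f : L → ℕᵒᵈ ⊕ₗ (ℕ ×ₗ ℕ),
      (∀ x, m x ≤ s x → f x = toLex (Sum.inl (OrderDual.toDual (hh x (z (s x)))))) ∧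
      ∀ x, ¬ m x ≤ s x → f x = toLex (Sum.inr (toLex (m x - s x, hh (p ⊓ x) x))) :=
    ⟨fun x => if m x ≤ s x then toLex (Sum.inl (OrderDual.toDual (hh x (z (s x)))))
      else toLex (Sum.inr (toLex (m x - s x, hh (p ⊓ x) x))),
      fun x h => if_pos h, fun x h => if_neg h⟩
  refine ⟨f, ?_⟩
  intro x y hxy
  have h1 := hmm hxy.le
  have h2 := hsm hxy.le
  by_cases h3 : m y ≤ s y
  · have h4 : m x ≤ s x := by omega
    rw [hf1 x h4, hf1 y h3, Sum.Lex.toLex_lt_toLex]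
    refine Sum.Lex.inl ?_
    rw [OrderDual.toDual_lt_toDual]
    have h5 : y ≤ z (s y) := (hm1 y).trans (hza h3)
    have h6 := hh_left hb hxy h5
    have h7 := hh_mono hb (le_refl x) (hza h2)
    omega
  · by_cases h4 : m x ≤ s x
    · rw [hf1 x h4, hf2 y h3]
      exact Sum.Lex.inl_lt_inr _ _
    · rw [hf2 x h4, hf2 y h3, Sum.Lex.toLex_lt_toLex]
      refine Sum.Lex.inr ?_
      rw [Prod.Lex.toLex_lt_toLex]
      rcases Nat.lt_or_ge (m x - s x) (m y - s y) with h5 | h5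
      · exact Or.inl h5
      · right
        have h6 := hse hxy.le (by omega)
        refine ⟨by dsimp only; omega, ?_⟩
        dsimp only
        rw [← h6]
        have := hh_right hb (inf_le_right : p ⊓ x ≤ x) hxy
        omega

end Pool.Agent.Helper64_DF7
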